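import Pool.Agent.helper10.OM.SpecG
import Pool.Agent.helper72.AT.PSY

set_option autoImplicit false

namespace Pool.Agent.OM

open Finset Real Pool.Agent.AT Pool.Agent.helper85.FC

theorem GSY_NR (a b q T : ℕ) (c d : ℤ) (hd : d = -c - q * ((T : ℤ) - 1)) : NR a b q T c ≤ NR b a q T d := by
  classical
  unfold NR
  refine Finset.card_le_card_of_injOn (fun t => T - 1 - t) ?_ ?_
  · intro t ht
    simp only [Finset.coe_filter, Finset.mem_range, Set.mem_ofPred_eq] at ht ⊢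
    refine ⟨by omega, ?_⟩
    have h1 := PSY_symm ht.2
    have h2 : ((T - 1 - t : ℕ) : ℤ) = (T : ℤ) - 1 - t := by
      have := ht.1
      omega
    rw [h2, hd]
    have h3 : -c - (q : ℤ) * ((T : ℤ) - 1) + q * ((T : ℤ) - 1 - t) = -(c + q * t) := by ring
    rw [h3]
    exact h1
  · intro t ht s hs hts
    simp only [Finset.coe_filter, Finset.mem_range, Set.mem_ofPred_eq] at ht hs hts
    omega

theorem GSY : GSY_stmt := by
  intro ε a b h
  obtain ⟨q, r, hq, h⟩ := h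
  have hq0 : (q : ℤ) ≠ 0 := by positivity
  have hnn : 0 ≤ (-(r : ℤ)) % q := Int.emod_nonneg _ hq0
  refine ⟨q, ((-(r : ℤ)) % q).toNat, hq, ?_⟩
  intro T hT
  obtain ⟨u, hu⟩ := h T hT
  refine ⟨(-(r : ℤ)) / q - (u + ((T : ℤ) - 1)), ?_⟩
  have h1 : (((((-(r : ℤ)) % q).toNat : ℕ) : ℤ) + q * ((-(r : ℤ)) / q - (u + ((T : ℤ) - 1)))) =
      -((r : ℤ) + q * u) - q * ((T : ℤ) - 1) := by
    rw [Int.toNat_of_nonneg hnn]
    have h2 := Int.emod_add_mul_ediv (-(r : ℤ)) q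
    linear_combination h2
  have h3 := GSY_NR a b q T ((r : ℤ) + q * u) _ h1
  have h4 : (NR a b q T ((r : ℤ) + q * u) : ℝ) ≤ NR b a q T (((((-(r : ℤ)) % q).toNat : ℕ) : ℤ) + q * ((-(r : ℤ)) / q - (u + ((T : ℤ) - 1)))) := by
    exact_mod_cast h3
  exact le_trans hu h4

end Pool.Agent.OM
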